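import Pool.Agent.Results.MP_931ca8_lc.BelowOmegaThree
import Pool.Agent.Helper292.ForceCH

/-!
# The conjecture of Erdős, Hajnal and Milner on infinite paths is not a theorem of ZFC

The continuum hypothesis can be forced, and it refutes `P(α)` for all `α` with
`ω₁ ^ (ω + 2) ≤ α < ω₂`. The forcing language is the one of `Pool.Agent.Helper292.ForceCH`:
a sentence is represented by the set of the conditions which force it, with the usual clauses for
the connectives.
-/

set_option autoImplicit false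

open Cardinal Ordinal

namespace Pool.Agent.Results.MP_931ca8_lc.NotATheorem

open Pool.Agent.Results.MP_931ca8_lc.BelowOmegaThree
open Pool.Agent.TH764.OG (Rel rel_opow rel_opow_countable rel_iff_terms one_le_of_mem cnf_split)

theorem no_path (hCH : (2 : Cardinal.{0}) ^ (ℵ₀ : Cardinal.{0}) = ℵ₁) {α : Ordinal.{0}}
    (h4 : α < ω_ 2) (hcon : ω_ 1 ^ (ω + 2) ≤ α) : ¬ Rel α := by
  intro hR
  obtain ⟨G, hG1, hG2⟩ := Results.MP_820435_lc.NeverProvableAbove.main2
    (by rw [hCH, Cardinal.succ_aleph0]) α h4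
  rcases hR G with ⟨Y, hY1, hY2⟩ | hp
  · have h5 := hG2 Y (by
      intro x hx y hy hxy
      exact hY1 hx hy (G.ne_of_adj hxy) hxy)
    rw [hY2] at h5
    exact absurd h5 (not_lt.2 hcon)
  · exact hG1 hp

theorem rel_opow_iff (hCH : (2 : Cardinal.{0}) ^ (ℵ₀ : Cardinal.{0}) = ℵ₁) {γ : Ordinal.{0}}
    (hγ : 1 ≤ γ) (h4 : ω ^ γ < ω_ 2) : Rel (ω ^ γ) ↔ ω ^ γ < ω_ 1 ^ (ω + 2) := by
  have hμ : ℵ₀ ≤ (ℵ₁ : Cardinal.{0}) := Cardinal.aleph0_le_aleph 1
  have hcard1 : (ω_ 1 : Ordinal.{0}).card = ℵ₁ := Ordinal.card_omega 1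
  constructor
  · intro hR
    by_contra hcon
    exact no_path hCH h4 (not_lt.1 hcon) hR
  · intro h3
    rcases le_or_gt (ω ^ γ).card ℵ₀ with hc | hc
    · exact rel_opow_countable hγ hc
    · have h5 : (ω ^ γ).card = ℵ₁ := by
        refine le_antisymm ?_ ?_
        · refine (Ordinal.card_le_card h3.le).trans ?_
          refine (Ordinal.card_opow_le _ _).trans (max_le hμ (max_le hcard1.le ?_))
          rw [Ordinal.card_add, Ordinal.card_omega0]
          refine Cardinal.add_le_of_le hμ hμ ?_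
          have h := Ordinal.card_le_card (show (2 : Ordinal.{0}) ≤ ω from by
            exact_mod_cast (Ordinal.nat_lt_omega0 2).le)
          rw [Ordinal.card_omega0] at h
          exact h.trans hμ
        · exact Cardinal.aleph_one_le_iff.2 hc
      refine rel_opow le_rfl hc ?_
      rw [h5, Cardinal.ord_aleph0, Cardinal.ord_aleph]
      exact h3

theorem exact_omega2 (hCH : (2 : Cardinal.{0}) ^ (ℵ₀ : Cardinal.{0}) = ℵ₁) {α : Ordinal.{0}}
    (hα : Order.IsSuccLimit α) (hlt : α < ω_ 2) :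
    Rel α ↔ ∀ γ ∈ (CNF ω α).map Prod.fst, ω ^ γ < ω_ 1 ^ (ω + 2) := by
  have hle : ∀ γ ∈ (CNF ω α).map Prod.fst, ω ^ γ < ω_ 2 := by
    intro γ hγ
    obtain ⟨β, δ, h3, _⟩ := cnf_split α γ hγ
    refine lt_of_le_of_lt ?_ hlt
    rw [h3]
    exact le_add_self.trans le_self_add
  rw [rel_iff_terms hα]
  constructor
  · intro h γ hγ
    exact (rel_opow_iff hCH (one_le_of_mem hα hγ) (hle γ hγ)).1 (h γ hγ)
  · intro h γ hγ
    exact (rel_opow_iff hCH (one_le_of_mem hα hγ) (hle γ hγ)).2 (h γ hγ)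

/-- (1) Some forcing notion forces, below every condition, that `ω₁` is preserved and that the
continuum hypothesis holds. (2) The continuum hypothesis implies that `P(α)` fails for all `α` with
`ω₁ ^ (ω + 2) ≤ α < ω₂`, and that, for a limit ordinal `α < ω₂`, `P(α)` holds if and only if each
term `ω ^ γ` of the Cantor normal form of `α` is less than `ω₁ ^ (ω + 2)`. -/
theorem result :
    (∃ (P : Type) (_ : Preorder P), Nonempty P ∧ ∀ p : P,
      p ∈ Pool.Agent.Helper292.ForceCH.OmegaOnePreserved P ∧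
      p ∈ Pool.Agent.Helper292.ForceCH.CHHolds P) ∧
    ((𝔠 : Cardinal.{0}) = ℵ₁ →
      (∀ α : Ordinal.{0}, ω_ 1 ^ (ω + 2) ≤ α → α < ω_ 2 → ¬ P α) ∧
      ∀ α : Ordinal.{0}, Order.IsSuccLimit α → α < ω_ 2 →
        (P α ↔ ∀ γ ∈ (CNF ω α).map Prod.fst, ω ^ γ < ω_ 1 ^ (ω + 2))) := by
  have h3 : ∀ α : Ordinal.{0}, P α ↔ Rel α := fun α => forall_congr' fun _ => or_comm
  refine ⟨?_, fun hCH => ?_⟩
  · obtain ⟨P, i, h1, h2⟩ := Pool.Agent.Helper292.ForceCH.exists_forcing
    exact ⟨P, i, h1, fun p => ⟨(h2 p).1, (h2 p).2.2⟩⟩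
  · have h : (2 : Cardinal.{0}) ^ (ℵ₀ : Cardinal.{0}) = ℵ₁ := by rw [two_power_aleph0, hCH]
    refine ⟨fun α h1 h2 hP => no_path h h2 h1 ((h3 α).1 hP), fun α hα hlt => ?_⟩
    rw [h3, exact_omega2 h hα hlt]

end Pool.Agent.Results.MP_931ca8_lc.NotATheorem
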